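import Mathlib
import Pool.Agent.R511.HomThr3

/-!
# The asymmetric homomorphism threshold of consecutive odd-cycle families is positive

For every `t ≥ 1` the threshold for the families `{C_3, …, C_{2t+3}}` and `{C_3, …, C_{2t+1}}`
is at least `1 / (10 t + 5)`; in particular it is never `0`.
-/

namespace Pool.Agent.Results.MP_0fa314_co.PositiveThreshold

open Pool.Agent.R511.HomThr

/-- For every `t ≥ 1`, the asymmetric homomorphism threshold for the odd cycles of length at
most `2 t + 3` and the odd cycles of length at most `2 t + 1` is at least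
`1 / (5 (2 t + 1))`. -/
theorem result (t : ℕ) (ht : 1 ≤ t) :
    1 / (5 * (2 * (t : ℝ) + 1)) ≤ homThreshold (2 * t + 3) (2 * t + 1) := by
  unfold homThreshold
  apply le_csInf
  · exact ⟨1, zero_le_one, le_refl _, admits_one _ _⟩
  · rintro d ⟨_, _, hd⟩
    by_contra hlt
    rw [not_le] at hlt
    have h := not_admits (2 * t + 1) (by omega) ⟨t, rfl⟩ d (by push_cast; exact hlt)
    exact h hd

end Pool.Agent.Results.MP_0fa314_co.PositiveThreshold
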